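import Pool.Agent.R819.SST

/-!
# The Tychonoff plank is not set-self-Tietze

Let `T = [0, ω₁] × [0, ω]`. By `Pool.Agent.R819.SST.completelyNormal` every Hausdorff set-self-Tietze
space is completely normal; directly: let `A` be the union of the right edge
`{ω₁} × [0, ω]` and the top edge `[0, ω₁] × {ω}`, and let `f` be `{c}` on the right edge without the
corner, `{d}` on the top edge without the corner, and `{c, d}` at the corner, where `c ≠ d`. Then `f`
is upper semicontinuous and has no upper semicontinuous extension, since the two edges without the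
corner cannot be separated by open subsets of `T`.
-/

set_option autoImplicit false

open Set Topology Filter Ordinal

namespace Pool.Agent.Results.MP_231ef3_gt.PlankNotSetSelfTietze

open Pool.Agent.R819.SST

/-- the ordinal space `[0, ω₁]` -/
abbrev R1 : Type _ := Iic (ω₁ : Ordinal.{0})

/-- the ordinal space `[0, ω]` -/
abbrev R0 : Type _ := Iic (ω : Ordinal.{0})

/-- the Tychonoff plank `[0, ω₁] × [0, ω]` -/
abbrev Plank : Type _ := R1 × R0

/-- the point `ω₁` -/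
noncomputable abbrev t1 : R1 := ⟨ω₁, mem_Iic.2 le_rfl⟩

/-- the point `ω` -/
noncomputable abbrev t0 : R0 := ⟨ω, mem_Iic.2 le_rfl⟩

theorem not_completelyNormal : ¬ CompletelyNormalSpace Plank := by
  intro h
  let P : Set Plank := {x | x.1 = t1 ∧ x.2 ≠ t0}
  let Q : Set Plank := {x | x.1 ≠ t1 ∧ x.2 = t0}
  have hP : closure P ⊆ {x | x.1 = t1} := closure_minimal (fun x hx => hx.1)
    (isClosed_singleton.preimage continuous_fst)
  have hQ : closure Q ⊆ {x | x.2 = t0} := closure_minimal (fun x hx => hx.2)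
    (isClosed_singleton.preimage continuous_snd)
  have hd := completely_normal (s := P) (t := Q)
    (Set.disjoint_left.2 fun x hx hx' => hx'.1 (hP hx))
    (Set.disjoint_left.2 fun x hx hx' => hx.2 (hQ hx'))
  obtain ⟨U, V, hU, hV, hPU, hQV, hUV⟩ := (Filter.HasBasis.disjoint_iff (hasBasis_nhdsSet P)
    (hasBasis_nhdsSet Q)).1 hd |> fun ⟨U, hU, V, hV, hUV⟩ => (⟨U, V, hU.1, hV.1, hU.2, hV.2, hUV⟩ :
      ∃ U V : Set Plank, IsOpen U ∧ IsOpen V ∧ P ⊆ U ∧ Q ⊆ V ∧ Disjoint U V)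
  -- the columns
  have h1 : ∀ n : ℕ, ∃ α : Ordinal.{0}, α < ω₁ ∧ ∀ β : R1, α < β.1 →
      ((β, ⟨(n : Ordinal), mem_Iic.2 (natCast_lt_omega0 n).le⟩) : Plank) ∈ U := by
    intro n
    have h2 : (fun β : R1 => ((β, ⟨(n : Ordinal), mem_Iic.2 (natCast_lt_omega0 n).le⟩) : Plank)) ⁻¹' U ∈ 𝓝 t1 := by
      refine (hU.preimage (by fun_prop)).mem_nhds ?_
      refine hPU ⟨rfl, fun h3 => ?_⟩
      have h5 : (n : Ordinal.{0}) = ω := congrArg Subtype.val h3
      exact (natCast_lt_omega0 n).ne h5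
    obtain ⟨l, hl, hl2⟩ := exists_Ioc_subset_of_mem_nhds h2
      ⟨⟨0, mem_Iic.2 zero_le⟩, Subtype.mk_lt_mk.2 (Ordinal.omega_pos 1)⟩
    exact ⟨l.1, hl, fun β hβ => hl2 ⟨hβ, β.2⟩⟩
  choose α hα1 hα2 using h1
  have hsup : (⨆ n, α n) < ω₁ := Ordinal.iSup_lt_omega_one hα1
  let β : Ordinal.{0} := Order.succ (⨆ n, α n)
  have hβ : β < ω₁ := (Cardinal.isSuccLimit_omega 1).succ_lt hsup
  have h3 : (fun γ : R0 => (((⟨β, hβ.le⟩ : R1), γ) : Plank)) ⁻¹' V ∈ 𝓝 t0 := by
    refine (hV.preimage (by fun_prop)).mem_nhds (hQV ⟨fun h4 => ?_, rfl⟩)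
    have h5 : β = ω₁ := congrArg Subtype.val h4
    exact hβ.ne h5
  obtain ⟨l, hl, hl2⟩ := exists_Ioc_subset_of_mem_nhds h3 ⟨⟨0, mem_Iic.2 zero_le⟩,
    Subtype.mk_lt_mk.2 omega0_pos⟩
  obtain ⟨m, hm⟩ := lt_omega0.1 (show l.1 < ω from hl)
  have h4 : ((⟨β, hβ.le⟩, ⟨((m + 1 : ℕ) : Ordinal), (natCast_lt_omega0 (m + 1)).le⟩) : Plank) ∈ V := by
    refine hl2 ⟨?_, (natCast_lt_omega0 (m + 1)).le⟩
    change l.1 < ((m + 1 : ℕ) : Ordinal)
    rw [hm]
    exact_mod_cast Nat.lt_succ_self m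
  refine Set.disjoint_left.1 hUV (hα2 (m + 1) ⟨β, hβ.le⟩ ?_) h4
  exact lt_of_le_of_lt (Ordinal.le_iSup α (m + 1)) (Order.lt_succ _)

/-- **The Tychonoff plank is not set-self-Tietze.** -/
theorem result : ¬ SetSelfTietze Plank := fun h => not_completelyNormal (completelyNormal h)

end Pool.Agent.Results.MP_231ef3_gt.PlankNotSetSelfTietze
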